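import Mathlib

/-!
# A perfect matching between the lower and the upper half of an odd cube
-/

namespace Pool.Agent.Q155.DF

open Finset

lemma card_supersets {n : ℕ} (u : Finset (Fin n)) (i : ℕ) (hu : u.card = i) (hi : 2 * i ≤ n) :
    ((univ : Finset (Finset (Fin n))).filter (fun v => u ⊆ v ∧ v.card = n - i)).card
      = (n - i).choose i := by
  have h1 : ((univ : Finset (Finset (Fin n))).filter (fun v => u ⊆ v ∧ v.card = n - i))
      = (powersetCard i uᶜ).image (fun w => wᶜ) := by
    ext v
    simp only [mem_filter, mem_univ, true_and, mem_image, mem_powersetCard]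
    constructor
    · rintro ⟨h1, h2⟩
      refine ⟨vᶜ, ⟨?_, ?_⟩, by simp⟩
      · exact Finset.compl_subset_compl.mpr h1
      · rw [card_compl, Fintype.card_fin, h2]
        have : i ≤ n := by omega
        omega
    · rintro ⟨w, ⟨hw1, hw2⟩, rfl⟩
      constructor
      · exact Finset.subset_compl_comm.mp hw1
      · rw [card_compl, Fintype.card_fin, hw2]
  rw [h1, card_image_of_injective _ compl_injective, card_powersetCard, card_compl,
    Fintype.card_fin, hu]

lemma exists_level (n i : ℕ) (hi : 2 * i ≤ n) :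
    ∃ g : Finset (Fin n) → Finset (Fin n),
      (∀ u, u.card = i → u ⊆ g u ∧ (g u).card = n - i) ∧
      Set.InjOn g {u | u.card = i} := by
  classical
  let ι := {u : Finset (Fin n) // u.card = i}
  let t : ι → Finset (Finset (Fin n)) := fun u => univ.filter (fun v => u.1 ⊆ v ∧ v.card = n - i)
  have key : ∀ s : Finset ι, s.card ≤ (s.biUnion t).card := by
    intro s
    have hC : 0 < (n - i).choose i := Nat.choose_pos (by omega)
    have := Finset.card_mul_le_card_mul (s := s) (t := s.biUnion t)
      (fun (u : ι) (v : Finset (Fin n)) => u.1 ⊆ v) (m := (n - i).choose i)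
      (n := (n - i).choose i) ?_ ?_
    · exact Nat.le_of_mul_le_mul_right this hC
    · intro a ha
      rw [← card_supersets a.1 i a.2 hi]
      apply Finset.card_le_card
      intro v hv
      rw [Finset.mem_bipartiteAbove]
      refine ⟨Finset.mem_biUnion.mpr ⟨a, ha, hv⟩, ?_⟩
      exact (Finset.mem_filter.mp hv).2.1
    · intro b hb
      obtain ⟨a, ha, hab⟩ := Finset.mem_biUnion.mp hb
      have hbc : b.card = n - i := (Finset.mem_filter.mp hab).2.2
      have h1 : (s.bipartiteBelow (fun (u : ι) (v : Finset (Fin n)) => u.1 ⊆ v) b).card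
          ≤ (powersetCard i b).card := by
        apply Finset.card_le_card_of_injOn (fun u => u.1)
        · intro u hu
          have hu' := (Finset.mem_bipartiteBelow _).mp (Finset.mem_coe.mp hu)
          exact Finset.mem_coe.mpr (mem_powersetCard.mpr ⟨hu'.2, u.2⟩)
        · intro u _ v _ huv
          exact Subtype.ext huv
      rw [card_powersetCard, hbc] at h1
      exact h1
  obtain ⟨f, hf1, hf2⟩ := (Finset.all_card_le_biUnion_card_iff_exists_injective t).mp key
  refine ⟨fun u => if h : u.card = i then f ⟨u, h⟩ else u, ?_, ?_⟩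
  · intro u hu
    have := hf2 ⟨u, hu⟩
    simp only [t, mem_filter, mem_univ, true_and] at this
    simp only [hu, dif_pos]
    exact this
  · intro u hu v hv huv
    simp only [Set.mem_setOf_eq] at hu hv
    simp only [hu, hv, dif_pos] at huv
    have := hf1 huv
    exact congrArg Subtype.val this

/-- A perfect matching of the lower half of the cube of dimension `2m+1` into the upper half, which
sends level `i` to level `2m+1-i`. -/
lemma exists_half (m : ℕ) :
    ∃ ψ : Finset (Fin (2 * m + 1)) → Finset (Fin (2 * m + 1)),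
      (∀ u, u.card ≤ m → u ⊆ ψ u ∧ (ψ u).card = 2 * m + 1 - u.card) ∧
      Set.InjOn ψ {u | u.card ≤ m} := by
  classical
  have h : ∀ i, ∃ g : Finset (Fin (2 * m + 1)) → Finset (Fin (2 * m + 1)),
      i ≤ m → ((∀ u, u.card = i → u ⊆ g u ∧ (g u).card = 2 * m + 1 - i) ∧
      Set.InjOn g {u | u.card = i}) := by
    intro i
    by_cases hi : i ≤ m
    · obtain ⟨g, hg⟩ := exists_level (2 * m + 1) i (by omega)
      exact ⟨g, fun _ => hg⟩
    · exact ⟨id, fun h => absurd h hi⟩
  choose g hg using h
  refine ⟨fun u => g u.card u, ?_, ?_⟩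
  · intro u hu
    exact (hg u.card hu).1 u rfl
  · intro u hu v hv huv
    simp only [Set.mem_setOf_eq] at hu hv
    have h1 := ((hg u.card hu).1 u rfl).2
    have h2 := ((hg v.card hv).1 v rfl).2
    have h3 : u.card = v.card := by
      simp only at huv
      rw [huv, h2] at h1
      omega
    simp only at huv
    rw [← h3] at huv
    exact (hg u.card hu).2 rfl h3.symm huv

/-- `∑_{i ≤ k} C(n,i) (n - 2i) = (k+1) C(n,k+1)` -/
lemma sum_choose_mul (n k : ℕ) :
    ∑ i ∈ range (k + 1), (n.choose i : ℝ) * ((n : ℝ) - 2 * i)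
      = (k + 1) * (n.choose (k + 1) : ℝ) := by
  have step : ∀ i : ℕ, (n.choose i : ℝ) * ((n : ℝ) - i) = (i + 1) * (n.choose (i + 1) : ℝ) := by
    intro i
    by_cases hi : i ≤ n
    · have := Nat.choose_succ_right_eq n i
      have h2 : ((n.choose (i + 1) * (i + 1) : ℕ) : ℝ) = ((n.choose i * (n - i) : ℕ) : ℝ) := by
        rw [this]
      push_cast [Nat.cast_sub hi] at h2
      linarith
    · push Not at hi
      rw [Nat.choose_eq_zero_of_lt hi, Nat.choose_eq_zero_of_lt (by omega)]
      simp
  induction k with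
  | zero =>
    have := step 0
    simp at this ⊢
  | succ k ih =>
    rw [Finset.sum_range_succ, ih]
    have h1 := step (k + 1)
    push_cast at h1 ⊢
    linarith

lemma card_level_le (m : ℕ) :
    ((univ : Finset (Finset (Fin (2 * m + 1)))).filter (fun u => u.card ≤ m)).card = 4 ^ m := by
  rw [← Nat.sum_range_choose_halfway m]
  have h1 : ((univ : Finset (Finset (Fin (2 * m + 1)))).filter (fun u => u.card ≤ m))
      = (range (m + 1)).biUnion (fun i => powersetCard i univ) := by
    ext u
    simp only [mem_filter, mem_univ, true_and, mem_biUnion, mem_range, mem_powersetCard,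
      subset_univ]
    constructor
    · intro h
      exact ⟨u.card, by omega, rfl⟩
    · rintro ⟨i, hi, rfl⟩
      omega
  rw [h1, card_biUnion]
  · apply Finset.sum_congr rfl
    intro i _
    rw [card_powersetCard]
    simp
  · intro i _ j _ hij
    rw [Function.onFun, Finset.disjoint_left]
    intro u hu hu'
    rw [mem_powersetCard] at hu hu'
    exact hij (hu.2.symm.trans hu'.2)

lemma sum_level_le (m : ℕ) :
    ∑ u ∈ (univ : Finset (Finset (Fin (2 * m + 1)))).filter (fun u => u.card ≤ m),
      (((2 * m + 1 : ℕ) : ℝ) - 2 * (u.card : ℝ))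
      = (m + 1) * ((2 * m + 1).choose (m + 1) : ℝ) := by
  rw [← sum_choose_mul]
  have h1 : ((univ : Finset (Finset (Fin (2 * m + 1)))).filter (fun u => u.card ≤ m))
      = (range (m + 1)).biUnion (fun i => powersetCard i univ) := by
    ext u
    simp only [mem_filter, mem_univ, true_and, mem_biUnion, mem_range, mem_powersetCard,
      subset_univ]
    constructor
    · intro h
      exact ⟨u.card, by omega, rfl⟩
    · rintro ⟨i, hi, rfl⟩
      omega
  rw [h1, sum_biUnion]
  · apply Finset.sum_congr rfl
    intro i _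
    have h2 : ∀ u ∈ powersetCard i (univ : Finset (Fin (2 * m + 1))),
        (((2 * m + 1 : ℕ) : ℝ) - 2 * (u.card : ℝ)) = (((2 * m + 1 : ℕ) : ℝ) - 2 * (i : ℝ)) := by
      intro u hu
      rw [(mem_powersetCard.mp hu).2]
    rw [Finset.sum_congr rfl h2, Finset.sum_const, card_powersetCard]
    simp
  · intro i _ j _ hij
    rw [Function.onFun, Finset.disjoint_left]
    intro u hu hu'
    rw [mem_powersetCard] at hu hu'
    exact hij (hu.2.symm.trans hu'.2)

lemma card_notMem (m : ℕ) (q : Fin (2 * m + 1)) :
    ((univ : Finset (Finset (Fin (2 * m + 1)))).filter (fun u => q ∉ u)).card = 4 ^ m := by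
  have h1 : ((univ : Finset (Finset (Fin (2 * m + 1)))).filter (fun u => q ∉ u))
      = ((univ : Finset (Fin (2 * m + 1))).erase q).powerset := by
    ext u
    simp only [mem_filter, mem_univ, true_and, mem_powerset]
    constructor
    · intro h x hx
      rw [mem_erase]
      exact ⟨fun hh => h (hh ▸ hx), mem_univ _⟩
    · intro h hq
      exact (mem_erase.mp (h hq)).1 rfl
  rw [h1, card_powerset, card_erase_of_mem (mem_univ _), card_univ, Fintype.card_fin]
  rw [show 2 * m + 1 - 1 = 2 * m by omega, pow_mul]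
  norm_num

/-- `(2n+1) C(2n,n)² ≤ 16^n` -/
lemma centralBinom_sq_upper (n : ℕ) : (2 * n + 1) * (Nat.centralBinom n) ^ 2 ≤ 16 ^ n := by
  induction n with
  | zero => simp
  | succ n ih =>
    have h := Nat.succ_mul_centralBinom_succ n
    have h2 : (n + 1) ^ 2 * ((2 * (n + 1) + 1) * (Nat.centralBinom (n + 1)) ^ 2)
        ≤ (n + 1) ^ 2 * 16 ^ (n + 1) := by
      calc (n + 1) ^ 2 * ((2 * (n + 1) + 1) * (Nat.centralBinom (n + 1)) ^ 2)
          = (2 * (n + 1) + 1) * ((n + 1) * Nat.centralBinom (n + 1)) ^ 2 := by ring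
        _ = (2 * (n + 1) + 1) * (2 * (2 * n + 1) * Nat.centralBinom n) ^ 2 := by rw [h]
        _ = ((2 * n + 3) * (2 * n + 1)) * 4 * ((2 * n + 1) * (Nat.centralBinom n) ^ 2) := by ring
        _ ≤ ((2 * n + 3) * (2 * n + 1)) * 4 * 16 ^ n := Nat.mul_le_mul_left _ ih
        _ ≤ ((n + 1) ^ 2 * 4) * 4 * 16 ^ n := by
            apply Nat.mul_le_mul_right
            apply Nat.mul_le_mul_right
            nlinarith
        _ = (n + 1) ^ 2 * 16 ^ (n + 1) := by ring
    exact Nat.le_of_mul_le_mul_left h2 (by positivity)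

/-- `16^n ≤ 4 n C(2n,n)²` -/
lemma centralBinom_sq_lower (n : ℕ) (hn : 1 ≤ n) : 16 ^ n ≤ 4 * n * (Nat.centralBinom n) ^ 2 := by
  induction n, hn using Nat.le_induction with
  | base => simp [Nat.centralBinom]
  | succ n hn ih =>
    have h := Nat.succ_mul_centralBinom_succ n
    have h2 : (n * (n + 1)) * 16 ^ (n + 1)
        ≤ (n * (n + 1)) * (4 * (n + 1) * (Nat.centralBinom (n + 1)) ^ 2) := by
      calc (n * (n + 1)) * 16 ^ (n + 1) = (n * (n + 1) * 16) * 16 ^ n := by ring
        _ ≤ (n * (n + 1) * 16) * (4 * n * (Nat.centralBinom n) ^ 2) := Nat.mul_le_mul_left _ ih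
        _ = 16 * (n * ((4 * n * (n + 1)) * (Nat.centralBinom n) ^ 2)) := by ring
        _ ≤ 16 * (n * (((2 * n + 1) ^ 2) * (Nat.centralBinom n) ^ 2)) := by
            apply Nat.mul_le_mul_left
            apply Nat.mul_le_mul_left
            apply Nat.mul_le_mul_right
            nlinarith
        _ = n * (4 * (2 * (2 * n + 1) * Nat.centralBinom n) ^ 2) := by ring
        _ = n * (4 * ((n + 1) * Nat.centralBinom (n + 1)) ^ 2) := by rw [h]
        _ = (n * (n + 1)) * (4 * (n + 1) * (Nat.centralBinom (n + 1)) ^ 2) := by ring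
    exact Nat.le_of_mul_le_mul_left h2 (by positivity)

end Pool.Agent.Q155.DF
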