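import Pool.Agent.Q155.DF.Defs
import Pool.Agent.Q155.DF.Match

/-!
# The set `S`: one majority cube and `N - 1` dictator cubes
-/

namespace Pool.Agent.Q155.DF

open Finset

variable {V : Type} [Fintype V] [DecidableEq V]

/-- A splitting of the coordinate set into `N` address coordinates and `n` other ones. -/
structure Split (V : Type) [Fintype V] [DecidableEq V] (N n : ℕ) where
  σ : Finset V ≃ Finset (Fin N) × Finset (Fin n)
  hsub : ∀ x y, x ⊆ y ↔ (σ x).1 ⊆ (σ y).1 ∧ (σ x).2 ⊆ (σ y).2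
  hcard : ∀ x, x.card = (σ x).1.card + (σ x).2.card

namespace Split

variable {N m : ℕ} (P : Split V N (2 * m + 1)) (p0 : Fin N) (q0 : Fin (2 * m + 1))

/-- the lower half for the address `p0`, the dictator set for the others -/
def L (m : ℕ) (p0 : Fin N) (q0 : Fin (2 * m + 1)) (p : Fin N) :
    Finset (Finset (Fin (2 * m + 1))) :=
  if p = p0 then univ.filter (fun u => u.card ≤ m) else univ.filter (fun u => q0 ∉ u)

lemma mem_L_self (u : Finset (Fin (2 * m + 1))) : u ∈ L m p0 q0 p0 ↔ u.card ≤ m := by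
  simp [L]

lemma mem_L_ne {p : Fin N} (hp : p ≠ p0) (u : Finset (Fin (2 * m + 1))) :
    u ∈ L m p0 q0 p ↔ q0 ∉ u := by
  simp [L, hp]

lemma card_L (p : Fin N) : (L m p0 q0 p).card = 4 ^ m := by
  unfold L
  split_ifs
  · exact card_level_le m
  · exact card_notMem m q0

lemma compl_mem_L (p : Fin N) (u : Finset (Fin (2 * m + 1))) :
    uᶜ ∈ L m p0 q0 p ↔ u ∉ L m p0 q0 p := by
  by_cases hp : p = p0
  · subst hp
    rw [mem_L_self, mem_L_self, card_compl, Fintype.card_fin]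
    have := u.card_le_univ
    rw [Fintype.card_fin] at this
    omega
  · rw [mem_L_ne p0 q0 hp, mem_L_ne p0 q0 hp]
    simp

/-- the point with address `{p}` and second part `u` -/
def pt (p : Fin N) (u : Finset (Fin (2 * m + 1))) : Finset V := P.σ.symm ({p}, u)

lemma σ_pt (p : Fin N) (u : Finset (Fin (2 * m + 1))) : P.σ (P.pt p u) = ({p}, u) := by
  simp [pt]

lemma pt_inj {p p' : Fin N} {u u' : Finset (Fin (2 * m + 1))} (h : P.pt p u = P.pt p' u') :
    p = p' ∧ u = u' := by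
  have := congrArg P.σ h
  rw [P.σ_pt, P.σ_pt] at this
  simpa using this

lemma pt_subset {p : Fin N} {u v : Finset (Fin (2 * m + 1))} :
    P.pt p u ⊆ P.pt p v ↔ u ⊆ v := by
  rw [P.hsub, P.σ_pt, P.σ_pt]
  simp

lemma card_pt (p : Fin N) (u : Finset (Fin (2 * m + 1))) : (P.pt p u).card = u.card + 1 := by
  rw [P.hcard, P.σ_pt]
  simp [add_comm]

/-- the set `S` -/
def S : Finset (Finset V) :=
  univ.filter (fun x => 2 ≤ (P.σ x).1.card ∨ ∃ p, (P.σ x).1 = {p} ∧ (P.σ x).2 ∈ L m p0 q0 p)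

lemma mem_S (x : Finset V) : x ∈ P.S p0 q0 ↔
    (2 ≤ (P.σ x).1.card ∨ ∃ p, (P.σ x).1 = {p} ∧ (P.σ x).2 ∈ L m p0 q0 p) := by
  simp [S]

lemma pt_mem_S (p : Fin N) (u : Finset (Fin (2 * m + 1))) :
    P.pt p u ∈ P.S p0 q0 ↔ u ∈ L m p0 q0 p := by
  rw [mem_S, P.σ_pt]
  simp only [card_singleton, Nat.reduceLeDiff, singleton_inj, false_or]
  constructor
  · rintro ⟨p', rfl, h⟩
    exact h
  · intro h
    exact ⟨p, rfl, h⟩

lemma viol {x y : Finset V} (hx : x ∈ P.S p0 q0) (hy : y ∉ P.S p0 q0) (hxy : x ⊆ y) :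
    ∃ p u v, x = P.pt p u ∧ y = P.pt p v ∧ u ∈ L m p0 q0 p ∧ v ∉ L m p0 q0 p ∧ u ⊆ v := by
  rw [P.hsub] at hxy
  rw [mem_S] at hx hy
  push Not at hy
  obtain ⟨hy1, hy2⟩ := hy
  rcases hx with hx | ⟨p, hp, hu⟩
  · have := card_le_card hxy.1
    omega
  · have h1 : (P.σ y).1 = {p} := by
      rw [hp] at hxy
      refine (Finset.eq_of_subset_of_card_le hxy.1 ?_).symm
      rw [card_singleton]
      omega
    refine ⟨p, (P.σ x).2, (P.σ y).2, ?_, ?_, hu, hy2 p h1, hxy.2⟩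
    · rw [pt, ← hp]
      simp
    · rw [pt, ← h1]
      simp

/-- the embedding -/
def ptEmb : (Fin N × Finset (Fin (2 * m + 1))) ↪ Finset V where
  toFun z := P.pt z.1 z.2
  inj' := by
    rintro ⟨p, u⟩ ⟨p', u'⟩ h
    obtain ⟨h1, h2⟩ := P.pt_inj h
    simp only at h1 h2
    rw [h1, h2]

@[simp] lemma ptEmb_apply (z : Fin N × Finset (Fin (2 * m + 1))) : P.ptEmb z = P.pt z.1 z.2 := rfl

/-- sources -/
def X : Finset (Finset V) :=
  ((univ : Finset (Fin N × Finset (Fin (2 * m + 1)))).filter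
    (fun z => z.2 ∈ L m p0 q0 z.1)).map P.ptEmb

/-- targets -/
def Y : Finset (Finset V) :=
  ((univ : Finset (Fin N × Finset (Fin (2 * m + 1)))).filter
    (fun z => z.2 ∉ L m p0 q0 z.1)).map P.ptEmb

lemma mem_X {x : Finset V} : x ∈ P.X p0 q0 ↔ ∃ p u, u ∈ L m p0 q0 p ∧ x = P.pt p u := by
  simp only [X, mem_map, mem_filter, mem_univ, true_and, ptEmb_apply, Prod.exists]
  constructor
  · rintro ⟨p, u, h, rfl⟩
    exact ⟨p, u, h, rfl⟩
  · rintro ⟨p, u, h, rfl⟩
    exact ⟨p, u, h, rfl⟩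

lemma mem_Y {x : Finset V} : x ∈ P.Y p0 q0 ↔ ∃ p u, u ∉ L m p0 q0 p ∧ x = P.pt p u := by
  simp only [Y, mem_map, mem_filter, mem_univ, true_and, ptEmb_apply, Prod.exists]
  constructor
  · rintro ⟨p, u, h, rfl⟩
    exact ⟨p, u, h, rfl⟩
  · rintro ⟨p, u, h, rfl⟩
    exact ⟨p, u, h, rfl⟩

lemma sum_X (F : Finset V → ℝ) :
    ∑ x ∈ P.X p0 q0, F x = ∑ p, ∑ u ∈ L m p0 q0 p, F (P.pt p u) := by
  rw [X, sum_map, sum_filter, Fintype.sum_prod_type]
  apply Finset.sum_congr rfl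
  intro p _
  rw [← sum_filter]
  apply Finset.sum_congr
  · ext u
    simp
  · intro u _
    rfl

lemma card_X : (P.X p0 q0).card = N * 4 ^ m := by
  have h := P.sum_X p0 q0 (fun _ => (1 : ℝ))
  simp only [sum_const, nsmul_eq_mul, mul_one, card_L, card_univ, Fintype.card_fin] at h
  exact_mod_cast h

lemma card_Y : (P.Y p0 q0).card = (P.X p0 q0).card := by
  rw [X, Y, card_map, card_map]
  apply Finset.card_bij (fun z _ => (z.1, z.2ᶜ))
  · rintro ⟨p, u⟩ h
    simp only [mem_filter, mem_univ, true_and] at h ⊢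
    exact (compl_mem_L p0 q0 p u).mpr h
  · rintro ⟨p, u⟩ _ ⟨p', u'⟩ _ h
    simp only [Prod.mk.injEq, compl_inj_iff] at h
    exact Prod.ext h.1 h.2
  · rintro ⟨p, u⟩ h
    simp only [mem_filter, mem_univ, true_and] at h
    refine ⟨(p, uᶜ), ?_, by simp⟩
    simp only [mem_filter, mem_univ, true_and]
    intro h'
    exact (compl_mem_L p0 q0 p u).mp h' h

lemma src_subset {A : Finset (Finset V)} {φ : Finset V → Finset V}
    (h : IsMatchedPair (P.S p0 q0) A φ) : A ⊆ P.X p0 q0 := by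
  intro a ha
  obtain ⟨p, u, v, hx, -, hu, -, -⟩ := P.viol p0 q0 (h.src ha) (h.tgt a ha) (h.lt a ha).subset
  rw [mem_X]
  exact ⟨p, u, hu, hx⟩

lemma img_subset {A : Finset (Finset V)} {φ : Finset V → Finset V}
    (h : IsMatchedPair (P.S p0 q0) A φ) : A.image φ ⊆ P.Y p0 q0 := by
  intro b hb
  obtain ⟨a, ha, rfl⟩ := mem_image.mp hb
  obtain ⟨p, u, v, -, hy, -, hv, -⟩ := P.viol p0 q0 (h.src ha) (h.tgt a ha) (h.lt a ha).subset
  rw [mem_Y]
  exact ⟨p, v, hv, hy⟩

lemma exists_matching :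
    ∃ φ : Finset V → Finset V, IsMatchedPair (P.S p0 q0) (P.X p0 q0) φ ∧
      ∑ a ∈ P.X p0 q0, (((φ a).card : ℝ) - (a.card : ℝ))
        = ((N : ℝ) - 1) * 4 ^ m + (m + 1) * ((2 * m + 1).choose (m + 1) : ℝ) := by
  obtain ⟨ψ, hψ, hψi⟩ := exists_half m
  let φ0 : Fin N → Finset (Fin (2 * m + 1)) → Finset (Fin (2 * m + 1)) :=
    fun p u => if p = p0 then ψ u else insert q0 u
  let φ : Finset V → Finset V := fun x =>
    P.σ.symm ((P.σ x).1, if (P.σ x).1 = {p0} then ψ (P.σ x).2 else insert q0 (P.σ x).2)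
  have hφ : ∀ p u, φ (P.pt p u) = P.pt p (φ0 p u) := by
    intro p u
    simp only [φ, φ0, pt, Equiv.apply_symm_apply, singleton_inj]
  have h0 : ∀ p u, u ∈ L m p0 q0 p → u ⊂ φ0 p u ∧ φ0 p u ∉ L m p0 q0 p := by
    intro p u hu
    by_cases hp : p = p0
    · subst hp
      rw [mem_L_self] at hu
      simp only [φ0, if_pos, mem_L_self]
      obtain ⟨h1, h2⟩ := hψ u hu
      constructor
      · rw [Finset.ssubset_iff_subset_ne]
        refine ⟨h1, fun h => ?_⟩
        rw [← h] at h2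
        omega
      · rw [h2]
        omega
    · rw [mem_L_ne p0 q0 hp] at hu
      simp only [φ0, if_neg hp, mem_L_ne p0 q0 hp]
      exact ⟨Finset.ssubset_insert hu, by simp⟩
  refine ⟨φ, ⟨?_, ?_, ?_, ?_⟩, ?_⟩
  · intro x hx y hy hxy
    rw [mem_coe, mem_X] at hx hy
    obtain ⟨p, u, hu, rfl⟩ := hx
    obtain ⟨p', u', hu', rfl⟩ := hy
    rw [hφ, hφ] at hxy
    obtain ⟨h1, h2⟩ := P.pt_inj hxy
    subst h1
    by_cases hp : p = p0
    · subst hp
      rw [mem_L_self] at hu hu'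
      simp only [φ0, if_pos] at h2
      rw [hψi hu hu' h2]
    · rw [mem_L_ne p0 q0 hp] at hu hu'
      simp only [φ0, if_neg hp] at h2
      have : u = u' := by
        rw [← Finset.erase_insert hu, h2, Finset.erase_insert hu']
      rw [this]
  · intro a ha
    obtain ⟨p, u, hu, rfl⟩ := (P.mem_X p0 q0).mp ha
    rw [hφ]
    have h1 := (h0 p u hu).1
    rw [Finset.ssubset_iff_subset_ne]
    refine ⟨P.pt_subset.mpr h1.subset, fun h => ?_⟩
    exact h1.ne (P.pt_inj h).2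
  · intro a ha
    obtain ⟨p, u, hu, rfl⟩ := (P.mem_X p0 q0).mp ha
    exact (P.pt_mem_S p0 q0 p u).mpr hu
  · intro a ha
    obtain ⟨p, u, hu, rfl⟩ := (P.mem_X p0 q0).mp ha
    rw [hφ, P.pt_mem_S]
    exact (h0 p u hu).2
  · rw [P.sum_X p0 q0 (fun a => ((φ a).card : ℝ) - (a.card : ℝ))]
    have h1 : ∀ p, ∑ u ∈ L m p0 q0 p, (((φ (P.pt p u)).card : ℝ) - ((P.pt p u).card : ℝ))
        = if p = p0 then ((m + 1) * ((2 * m + 1).choose (m + 1) : ℝ)) else 4 ^ m := by
      intro p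
      split_ifs with hp
      · subst hp
        rw [← sum_level_le]
        have h2 : L m p q0 p = univ.filter (fun u => u.card ≤ m) := by simp [L]
        rw [h2]
        apply Finset.sum_congr rfl
        intro u hu
        have hu' : u.card ≤ m := (mem_filter.mp hu).2
        rw [hφ, P.card_pt, P.card_pt]
        simp only [φ0, if_pos]
        rw [(hψ u hu').2, Nat.cast_add, Nat.cast_add, Nat.cast_sub (by omega)]
        push_cast
        ring
      · have h3 : ∀ u ∈ L m p0 q0 p, (((φ (P.pt p u)).card : ℝ) - ((P.pt p u).card : ℝ)) = 1 := by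
          intro u hu
          rw [mem_L_ne p0 q0 hp] at hu
          rw [hφ, P.card_pt, P.card_pt]
          simp only [φ0, if_neg hp]
          rw [card_insert_of_notMem hu]
          push_cast
          ring
        rw [Finset.sum_congr rfl h3, Finset.sum_const, card_L]
        simp
    rw [Finset.sum_congr rfl (fun p _ => h1 p), ← Finset.sum_erase_add _ _ (mem_univ p0)]
    rw [if_pos rfl]
    congr 1
    have h4 : ∀ p ∈ (univ : Finset (Fin N)).erase p0,
        (if p = p0 then ((m + 1) * ((2 * m + 1).choose (m + 1) : ℝ)) else 4 ^ m) = 4 ^ m := by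
      intro p hp
      rw [if_neg (mem_erase.mp hp).1]
    rw [Finset.sum_congr rfl h4, Finset.sum_const, card_erase_of_mem (mem_univ _), card_univ,
      Fintype.card_fin, nsmul_eq_mul]
    have hN : 1 ≤ N := Nat.one_le_of_lt (Fin.pos p0)
    rw [Nat.cast_sub hN]
    simp

lemma dvol_S : dvol (P.S p0 q0) = N * 4 ^ m := by
  obtain ⟨φ, hφ, -⟩ := P.exists_matching p0 q0
  unfold dvol
  apply le_antisymm
  · apply csSup_le
    · exact ⟨_, _, φ, hφ, rfl⟩
    · rintro k ⟨A, φ', h, rfl⟩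
      rw [← P.card_X p0 q0]
      exact card_le_card (P.src_subset p0 q0 h)
  · apply le_csSup
    · refine ⟨N * 4 ^ m, ?_⟩
      rintro k ⟨A, φ', h, rfl⟩
      rw [← P.card_X p0 q0]
      exact card_le_card (P.src_subset p0 q0 h)
    · exact ⟨_, φ, hφ, P.card_X p0 q0⟩

lemma cert_avg {A : Finset (Finset V)} {φ φ' : Finset V → Finset V}
    (h : IsMatchedPair (P.S p0 q0) (P.X p0 q0) φ) (h' : IsMatchedPair (P.S p0 q0) A φ')
    (hA : A.card = dvol (P.S p0 q0)) : avgDist A φ' = avgDist (P.X p0 q0) φ := by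
  have h1 : A = P.X p0 q0 := by
    apply Finset.eq_of_subset_of_card_le (P.src_subset p0 q0 h')
    rw [hA, P.dvol_S, P.card_X]
  subst h1
  have key : ∀ φ : Finset V → Finset V, IsMatchedPair (P.S p0 q0) (P.X p0 q0) φ →
      ∑ a ∈ P.X p0 q0, ((φ a).card : ℝ) = ∑ b ∈ P.Y p0 q0, (b.card : ℝ) := by
    intro φ h
    have h2 : (P.X p0 q0).image φ = P.Y p0 q0 := by
      apply Finset.eq_of_subset_of_card_le (P.img_subset p0 q0 h)
      rw [Finset.card_image_of_injOn h.inj, P.card_Y]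
    rw [← h2, Finset.sum_image]
    exact h.inj
  unfold avgDist
  rw [Finset.sum_sub_distrib, Finset.sum_sub_distrib, key φ h, key φ' h']

lemma sepDist_S : sepDist (P.S p0 q0)
    = (((N : ℝ) - 1) * 4 ^ m + (m + 1) * ((2 * m + 1).choose (m + 1) : ℝ)) / (N * 4 ^ m) := by
  obtain ⟨φ, hφ, hsum⟩ := P.exists_matching p0 q0
  have h1 : {t : ℝ | ∃ (A : Finset (Finset V)) (φ : Finset V → Finset V),
    IsMatchedPair (P.S p0 q0) A φ ∧ A.card = dvol (P.S p0 q0) ∧ t = avgDist A φ}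
      = {avgDist (P.X p0 q0) φ} := by
    ext t
    constructor
    · rintro ⟨A, φ', h, hA, rfl⟩
      exact P.cert_avg p0 q0 hφ h hA
    · rintro rfl
      exact ⟨_, φ, hφ, by rw [P.dvol_S, P.card_X], rfl⟩
  unfold sepDist
  rw [h1, csInf_singleton]
  unfold avgDist
  rw [hsum, P.card_X]
  push_cast
  rfl

/-- the sources in the middle level of the majority cube -/
def M : Finset (Finset V) :=
  (powersetCard m (univ : Finset (Fin (2 * m + 1)))).image (fun u => P.pt p0 u)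

/-- the sources in the dictator cubes -/
def X1 : Finset (Finset V) := (P.X p0 q0) \
  ((univ.filter (fun u : Finset (Fin (2 * m + 1)) => u.card ≤ m)).image (fun u => P.pt p0 u))

lemma card_M : (P.M p0).card = (2 * m + 1).choose m := by
  unfold M
  rw [card_image_of_injective, card_powersetCard]
  · simp
  · intro u v h
    exact (P.pt_inj h).2

lemma card_X1 : ((P.X1 p0 q0).card : ℝ) = ((N : ℝ) - 1) * 4 ^ m := by
  unfold X1
  have h1 : ((univ.filter (fun u : Finset (Fin (2 * m + 1)) => u.card ≤ m)).image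
      (fun u => P.pt p0 u)) ⊆ P.X p0 q0 := by
    intro x hx
    obtain ⟨u, hu, rfl⟩ := mem_image.mp hx
    rw [mem_X]
    exact ⟨p0, u, (mem_L_self p0 q0 u).mpr (mem_filter.mp hu).2, rfl⟩
  rw [card_sdiff_of_subset h1, Nat.cast_sub (card_le_card h1), card_X, card_image_of_injective,
    card_level_le]
  · push_cast
    ring
  · intro u v h
    exact (P.pt_inj h).2

/-- the value of every flow is small -/
lemma flow_le {cV : ℝ} {f : Finset V → Finset V → ℝ} {s t : Finset V → ℝ}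
    (h : IsFlow (P.S p0 q0) 1 cV f s t) :
    ∑ x, s x ≤ ((N : ℝ) - 1) * 4 ^ m + cV * ((2 * m + 1).choose m : ℝ) := by
  have hdis : Disjoint (P.M p0) (P.X1 p0 q0) := by
    rw [Finset.disjoint_left]
    intro x hx hx'
    obtain ⟨u, hu, rfl⟩ := mem_image.mp hx
    refine (mem_sdiff.mp hx').2 (mem_image.mpr ⟨u, ?_, rfl⟩)
    rw [mem_filter]
    exact ⟨mem_univ _, (mem_powersetCard.mp hu).2.le⟩
  have hsub : P.M p0 ∪ P.X1 p0 q0 ⊆ P.S p0 q0 := by
    intro x hx
    rcases mem_union.mp hx with hx | hx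
    · obtain ⟨u, hu, rfl⟩ := mem_image.mp hx
      exact (P.pt_mem_S p0 q0 p0 u).mpr ((mem_L_self p0 q0 u).mpr (mem_powersetCard.mp hu).2.le)
    · obtain ⟨p, u, hu, rfl⟩ := (P.mem_X p0 q0).mp (mem_sdiff.mp hx).1
      exact (P.pt_mem_S p0 q0 p u).mpr hu
  have hzero : ∀ x ∈ P.S p0 q0, x ∉ P.M p0 ∪ P.X1 p0 q0 → ∑ y ∈ (P.S p0 q0)ᶜ, f x y = 0 := by
    intro x hx hx'
    apply Finset.sum_eq_zero
    intro y hy
    apply h.f_supp
    rintro ⟨hxy, hc⟩
    obtain ⟨p, u, v, rfl, rfl, hu, hv, huv⟩ := P.viol p0 q0 hx (mem_compl.mp hy) hxy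
    rw [P.card_pt, P.card_pt] at hc
    apply hx'
    rw [mem_union]
    by_cases hp : p = p0
    · left
      subst hp
      rw [mem_L_self] at hu hv
      refine mem_image.mpr ⟨u, ?_, rfl⟩
      rw [mem_powersetCard]
      exact ⟨subset_univ _, by omega⟩
    · right
      refine mem_sdiff.mpr ⟨(P.mem_X p0 q0).mpr ⟨p, u, hu, rfl⟩, ?_⟩
      intro h'
      obtain ⟨u', -, h2⟩ := mem_image.mp h'
      exact hp (P.pt_inj h2).1.symm
  have hM : ∑ x ∈ P.M p0, ∑ y ∈ (P.S p0 q0)ᶜ, f x y ≤ cV * ((2 * m + 1).choose m : ℝ) := by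
    calc ∑ x ∈ P.M p0, ∑ y ∈ (P.S p0 q0)ᶜ, f x y ≤ ∑ x ∈ P.M p0, cV :=
          Finset.sum_le_sum fun x _ => h.out_le x
      _ = cV * ((2 * m + 1).choose m : ℝ) := by
          rw [Finset.sum_const, P.card_M, nsmul_eq_mul, mul_comm]
  have hX1 : ∑ x ∈ P.X1 p0 q0, ∑ y ∈ (P.S p0 q0)ᶜ, f x y ≤ ((N : ℝ) - 1) * 4 ^ m := by
    calc ∑ x ∈ P.X1 p0 q0, ∑ y ∈ (P.S p0 q0)ᶜ, f x y ≤ ∑ x ∈ P.X1 p0 q0, (1 : ℝ) := by
          apply Finset.sum_le_sum
          intro x hx
          obtain ⟨p, u, hu, rfl⟩ := (P.mem_X p0 q0).mp (mem_sdiff.mp hx).1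
          have hp : p ≠ p0 := by
            rintro rfl
            refine (mem_sdiff.mp hx).2 (mem_image.mpr ⟨u, ?_, rfl⟩)
            rw [mem_filter]
            exact ⟨mem_univ _, (mem_L_self p q0 u).mp hu⟩
          have hu' := (mem_L_ne p0 q0 hp u).mp hu
          have honly : ∀ y ∈ (P.S p0 q0)ᶜ, y ≠ P.pt p (insert q0 u) → f (P.pt p u) y = 0 := by
            intro y hy hne
            apply h.f_supp
            rintro ⟨hxy, hc⟩
            obtain ⟨p', u', v, h1, rfl, hu2, hv, huv⟩ := P.viol p0 q0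
              ((P.pt_mem_S p0 q0 p u).mpr hu) (mem_compl.mp hy) hxy
            obtain ⟨rfl, rfl⟩ := P.pt_inj h1
            rw [P.card_pt, P.card_pt] at hc
            apply hne
            rw [mem_L_ne p0 q0 hp, not_not] at hv
            congr 1
            symm
            apply Finset.eq_of_subset_of_card_le
            · exact insert_subset hv huv
            · rw [card_insert_of_notMem hu']
              omega
          calc ∑ y ∈ (P.S p0 q0)ᶜ, f (P.pt p u) y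
              ≤ ∑ y ∈ (P.S p0 q0)ᶜ, (if y = P.pt p (insert q0 u) then (1 : ℝ) else 0) := by
                apply Finset.sum_le_sum
                intro y hy
                split_ifs with hyy
                · exact h.f_cap _ _
                · exact (honly y hy hyy).le
            _ ≤ 1 := by
                rw [Finset.sum_ite_eq']
                split_ifs <;> norm_num
      _ = ((N : ℝ) - 1) * 4 ^ m := by
          rw [Finset.sum_const, nsmul_eq_mul, mul_one, P.card_X1]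
  calc ∑ x, s x ≤ ∑ x ∈ P.S p0 q0, ∑ y ∈ (P.S p0 q0)ᶜ, f x y := h.value_le
    _ = ∑ x ∈ P.M p0 ∪ P.X1 p0 q0, ∑ y ∈ (P.S p0 q0)ᶜ, f x y :=
        (Finset.sum_subset hsub hzero).symm
    _ = ∑ x ∈ P.M p0, ∑ y ∈ (P.S p0 q0)ᶜ, f x y + ∑ x ∈ P.X1 p0 q0, ∑ y ∈ (P.S p0 q0)ᶜ, f x y :=
        Finset.sum_union hdis
    _ ≤ cV * ((2 * m + 1).choose m : ℝ) + ((N : ℝ) - 1) * 4 ^ m := add_le_add hM hX1
    _ = _ := by ring

lemma maxflow_le {cV : ℝ} (hV : 0 ≤ cV) :
    maxflow (P.S p0 q0) 1 cV ≤ ((N : ℝ) - 1) * 4 ^ m + cV * ((2 * m + 1).choose m : ℝ) := by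
  unfold maxflow
  apply csSup_le
  · refine ⟨0, fun _ _ => 0, fun _ => 0, fun _ => 0, ?_, by simp⟩
    constructor <;> simp [hV]
  · rintro v ⟨f, s, t, h, rfl⟩
    exact P.flow_le p0 q0 h

end Split

end Pool.Agent.Q155.DF
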