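import Mathlib

/-!
# The directed hypercube: matched pairs, directed volume, separation distance, flows

A vertex of the cube `{0,1}^d` is identified with the set of its coordinates equal to `1`, that is
with an element of `Finset (Fin d)`.
-/

namespace Pool.Agent.Q155.DF

open Finset

variable {V : Type} [Fintype V] [DecidableEq V]

/-- `(A, φ(A); φ)` is a matched pair with `A ⊆ S` and `φ(A) ⊆ Sᶜ`. -/
structure IsMatchedPair (S : Finset (Finset V)) (A : Finset (Finset V))
    (φ : Finset V → Finset V) : Prop where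
  inj : Set.InjOn φ (A : Set (Finset V))
  lt : ∀ a ∈ A, a ⊂ φ a
  src : A ⊆ S
  tgt : ∀ a ∈ A, φ a ∉ S

/-- The directed volume of `S`: the largest size of a matched pair from `S` to its complement. -/
noncomputable def dvol (S : Finset (Finset V)) : ℕ :=
  sSup {k : ℕ | ∃ (A : Finset (Finset V)) (φ : Finset V → Finset V),
    IsMatchedPair S A φ ∧ A.card = k}

/-- The separation distance of a matched pair: the average of `|φ(a)| - |a|`. -/
noncomputable def avgDist (A : Finset (Finset V)) (φ : Finset V → Finset V) : ℝ :=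
  (∑ a ∈ A, (((φ a).card : ℝ) - (a.card : ℝ))) / (A.card : ℝ)

/-- The separation distance of `S`: the minimum separation distance of a directed volume
certificate. -/
noncomputable def sepDist (S : Finset (Finset V)) : ℝ :=
  sInf {t : ℝ | ∃ (A : Finset (Finset V)) (φ : Finset V → Finset V),
    IsMatchedPair S A φ ∧ A.card = dvol S ∧ t = avgDist A φ}

/-- The directed edges of the cube. -/
def IsEdge (x y : Finset V) : Prop := x ⊆ y ∧ y.card = x.card + 1

/-- A feasible flow in the flow network for `S` with edge capacities `cE` and vertex capacities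
`cV`: `f x y` is the flow along the edge `x → y`, `s x` the flow from the source to `x`
and `t x` the flow from `x` to the sink. -/
structure IsFlow (S : Finset (Finset V)) (cE cV : ℝ) (f : Finset V → Finset V → ℝ)
    (s t : Finset V → ℝ) : Prop where
  f_nonneg : ∀ x y, 0 ≤ f x y
  f_supp : ∀ x y, ¬ IsEdge x y → f x y = 0
  f_cap : ∀ x y, f x y ≤ cE
  s_nonneg : ∀ x, 0 ≤ s x
  s_supp : ∀ x, x ∉ S → s x = 0
  t_nonneg : ∀ x, 0 ≤ t x
  t_supp : ∀ x, x ∈ S → t x = 0
  conservation : ∀ x, s x + ∑ y, f y x = t x + ∑ y, f x y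
  vertex_cap : ∀ x, s x + ∑ y, f y x ≤ cV

/-- The maximal value of a flow. -/
noncomputable def maxflow (S : Finset (Finset V)) (cE cV : ℝ) : ℝ :=
  sSup {v : ℝ | ∃ (f : Finset V → Finset V → ℝ) (s t : Finset V → ℝ),
    IsFlow S cE cV f s t ∧ v = ∑ x, s x}

/-- The value of a flow is at most the flow on the edges leaving `S`. -/
lemma IsFlow.value_le {S : Finset (Finset V)} {cE cV : ℝ} {f : Finset V → Finset V → ℝ}
    {s t : Finset V → ℝ} (h : IsFlow S cE cV f s t) :
    ∑ x, s x ≤ ∑ x ∈ S, ∑ y ∈ Sᶜ, f x y := by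
  have h1 : ∑ x, s x = ∑ x ∈ S, s x := by
    rw [← Finset.sum_subset (Finset.subset_univ S)]
    intro x _ hx
    exact h.s_supp x hx
  have h2 : ∑ x ∈ S, (s x + ∑ y, f y x) = ∑ x ∈ S, ∑ y, f x y := by
    apply Finset.sum_congr rfl
    intro x hx
    rw [h.conservation x, h.t_supp x hx, zero_add]
  rw [Finset.sum_add_distrib] at h2
  have h3 : ∀ x, ∑ y, f x y = ∑ y ∈ S, f x y + ∑ y ∈ Sᶜ, f x y := by
    intro x
    rw [Finset.sum_add_sum_compl]
  have h4 : ∀ x, ∑ y, f y x = ∑ y ∈ S, f y x + ∑ y ∈ Sᶜ, f y x := by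
    intro x
    rw [Finset.sum_add_sum_compl]
  simp only [h3, h4, Finset.sum_add_distrib] at h2
  have h5 : ∑ x ∈ S, ∑ y ∈ S, f y x = ∑ x ∈ S, ∑ y ∈ S, f x y := Finset.sum_comm
  have h6 : 0 ≤ ∑ x ∈ S, ∑ y ∈ Sᶜ, f y x :=
    Finset.sum_nonneg fun x _ => Finset.sum_nonneg fun y _ => h.f_nonneg y x
  linarith

lemma IsFlow.out_le {S : Finset (Finset V)} {cE cV : ℝ} {f : Finset V → Finset V → ℝ}
    {s t : Finset V → ℝ} (h : IsFlow S cE cV f s t) (x : Finset V) :
    ∑ y ∈ Sᶜ, f x y ≤ cV := by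
  have h1 := h.vertex_cap x
  rw [h.conservation x] at h1
  have h2 : ∑ y ∈ Sᶜ, f x y ≤ ∑ y, f x y :=
    Finset.sum_le_univ_sum_of_nonneg fun y => h.f_nonneg x y
  have := h.t_nonneg x
  linarith

end Pool.Agent.Q155.DF
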