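import Pool.Agent.Q155.DF.Build

/-!
# The counterexample
-/

namespace Pool.Agent.Q155.DF

open Finset

/-- the splitting of `Fin (N + n)` -/
def finSplit (N n : ℕ) : Split (Fin (N + n)) N n where
  σ := (finSumFinEquiv (m := N) (n := n)).symm.finsetCongr.trans Finset.sumEquiv.toEquiv
  hsub := by
    intro x y
    have h1 : x ⊆ y ↔ (finSumFinEquiv (m := N) (n := n)).symm.finsetCongr x ⊆
        (finSumFinEquiv (m := N) (n := n)).symm.finsetCongr y := by
      simp [Equiv.finsetCongr_apply]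
    rw [h1]
    have h2 := (Finset.sumEquiv (α := Fin N) (β := Fin n)).le_iff_le
      (x := (finSumFinEquiv (m := N) (n := n)).symm.finsetCongr x)
      (y := (finSumFinEquiv (m := N) (n := n)).symm.finsetCongr y)
    rw [show ((finSumFinEquiv (m := N) (n := n)).symm.finsetCongr x ⊆
        (finSumFinEquiv (m := N) (n := n)).symm.finsetCongr y) ↔
        ((finSumFinEquiv (m := N) (n := n)).symm.finsetCongr x ≤
        (finSumFinEquiv (m := N) (n := n)).symm.finsetCongr y) from Iff.rfl, ← h2, Prod.le_def]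
    rfl
  hcard := by
    intro x
    have h1 : x.card = ((finSumFinEquiv (m := N) (n := n)).symm.finsetCongr x).card := by
      simp [Equiv.finsetCongr_apply]
    rw [h1]
    exact (Finset.card_toLeft_add_card_toRight).symm

/-- the choice of the parameters -/
lemma exists_params (c : ℝ) (hc : 0 < c) :
    ∃ N m : ℕ, 2 ≤ N ∧
      ((N : ℝ) - 1) * 4 ^ m +
        ((((N : ℝ) - 1) * 4 ^ m + (m + 1) * ((2 * m + 1).choose (m + 1) : ℝ)) / (N * 4 ^ m)) ^ 2 *
          ((2 * m + 1).choose m : ℝ)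
      < c * ((((N : ℝ) - 1) * 4 ^ m + (m + 1) * ((2 * m + 1).choose (m + 1) : ℝ)) / (N * 4 ^ m)) *
          ((N * 4 ^ m : ℕ) : ℝ) := by
  obtain ⟨N0, hN0⟩ := exists_nat_gt (8 / c)
  set N := N0 + 2 with hN
  obtain ⟨m, hm⟩ := exists_nat_gt ((2 * ((N : ℝ) + 3) / c) ^ 2)
  refine ⟨N, m, by omega, ?_⟩
  have hsymm : (2 * m + 1).choose (m + 1) = (2 * m + 1).choose m := Nat.choose_symm_half m
  rw [hsymm]
  set B : ℝ := ((2 * m + 1).choose m : ℝ) with hB
  set E : ℝ := (4 : ℝ) ^ m with hE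
  have hEpos : 0 < E := by positivity
  have hBpos : 0 ≤ B := by positivity
  have hNpos : (0 : ℝ) < N := by
    have : 0 < N := by omega
    exact_mod_cast this
  have hcb : Nat.centralBinom (m + 1) = 2 * (2 * m + 1).choose m := by
    rw [Nat.centralBinom, show 2 * (m + 1) = 2 * m + 1 + 1 by ring, Nat.choose_succ_succ, hsymm]
    ring
  have hup := centralBinom_sq_upper (m + 1)
  have hlo := centralBinom_sq_lower (m + 1) (by omega)
  rw [hcb] at hup hlo
  have hup' : (m + 1 : ℝ) * B ^ 2 ≤ 2 * E ^ 2 := by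
    have h1 : ((2 * (m + 1) + 1 : ℕ) : ℝ) * (2 * B) ^ 2 ≤ 16 * E ^ 2 := by
      have h2 : (((2 * (m + 1) + 1) * (2 * (2 * m + 1).choose m) ^ 2 : ℕ) : ℝ)
          ≤ ((16 ^ (m + 1) : ℕ) : ℝ) := by exact_mod_cast hup
      push_cast at h2 ⊢
      rw [hE, ← pow_mul, mul_comm m 2, pow_mul]
      norm_num
      have h16 : (16 : ℝ) ^ (m + 1) = 16 * 16 ^ m := by ring
      rw [h16] at h2
      exact h2
    push_cast at h1
    nlinarith [sq_nonneg B]
  have hlo' : E ^ 2 ≤ (m + 1 : ℝ) * B ^ 2 := by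
    have h2 : ((16 ^ (m + 1) : ℕ) : ℝ)
          ≤ ((4 * (m + 1) * (2 * (2 * m + 1).choose m) ^ 2 : ℕ) : ℝ) := by exact_mod_cast hlo
    push_cast at h2
    rw [hE, ← pow_mul, mul_comm m 2, pow_mul]
    norm_num
    have h16 : (16 : ℝ) ^ (m + 1) = 16 * 16 ^ m := by ring
    rw [h16] at h2
    nlinarith [h2]
  -- `γ = B / E`, `τ = (m+1) γ`
  set γ : ℝ := B / E with hγ
  have hγ0 : 0 ≤ γ := by positivity
  have hBγ : B = γ * E := by rw [hγ]; field_simp
  have hup2 : (m + 1 : ℝ) * γ ^ 2 ≤ 2 := by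
    rw [hγ, div_pow, mul_div_assoc', div_le_iff₀ (by positivity)]
    exact hup'
  have hlo2 : 1 ≤ (m + 1 : ℝ) * γ ^ 2 := by
    rw [hγ, div_pow, mul_div_assoc', le_div_iff₀ (by positivity), one_mul]
    exact hlo'
  have hγ2 : γ ≤ 2 := by
    have h1 : (1 : ℝ) ≤ (m + 1 : ℝ) := by
      have : (0 : ℝ) ≤ m := by positivity
      linarith
    have h2 : 1 * γ ^ 2 ≤ (m + 1 : ℝ) * γ ^ 2 := mul_le_mul_of_nonneg_right h1 (sq_nonneg γ)
    by_contra h3
    push Not at h3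
    nlinarith
  set τ : ℝ := (m + 1 : ℝ) * γ with hτ
  have hτ0 : 0 ≤ τ := by positivity
  have hτγ : τ * γ ≤ 2 := by rw [hτ]; nlinarith
  have hτ2 : (m + 1 : ℝ) ≤ τ ^ 2 := by
    rw [hτ]
    have : (0 : ℝ) ≤ (m + 1 : ℝ) := by positivity
    nlinarith
  have hτbig : 2 * ((N : ℝ) + 3) / c < τ := by
    have h1 : (2 * ((N : ℝ) + 3) / c) ^ 2 < τ ^ 2 := by linarith
    exact lt_of_pow_lt_pow_left₀ 2 hτ0 h1
  rw [hBγ]
  have hr : (((N : ℝ) - 1) * E + (m + 1) * (γ * E)) / (N * E) = ((N : ℝ) - 1 + τ) / N := by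
    rw [hτ]
    field_simp
  rw [hr]
  have hND : ((N * 4 ^ m : ℕ) : ℝ) = N * E := by
    push_cast
    rfl
  rw [hND]
  have hrhs : c * (((N : ℝ) - 1 + τ) / N) * (N * E) = c * ((N : ℝ) - 1 + τ) * E := by
    field_simp
  rw [hrhs]
  have hlhs : ((N : ℝ) - 1) * E + (((N : ℝ) - 1 + τ) / N) ^ 2 * (γ * E)
      = (((N : ℝ) - 1) + (((N : ℝ) - 1 + τ) / N) ^ 2 * γ) * E := by ring
  rw [hlhs]
  apply mul_lt_mul_of_pos_right _ hEpos
  -- main inequality
  have hN2 : (2 : ℝ) ≤ N := by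
    have : 2 ≤ N := by omega
    exact_mod_cast this
  have hr1 : (((N : ℝ) - 1 + τ) / N) ^ 2 ≤ 2 + 2 * (τ / N) ^ 2 := by
    have h1 : ((N : ℝ) - 1 + τ) / N ≤ 1 + τ / N := by
      rw [add_div]
      have : ((N : ℝ) - 1) / N ≤ 1 := by
        rw [div_le_one hNpos]
        linarith
      linarith
    have h0 : 0 ≤ ((N : ℝ) - 1 + τ) / N := by
      apply div_nonneg
      · linarith
      · exact hNpos.le
    have h2 : (((N : ℝ) - 1 + τ) / N) ^ 2 ≤ (1 + τ / N) ^ 2 := pow_le_pow_left₀ h0 h1 2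
    have h2' : (1 + τ / N) ^ 2 ≤ 2 + 2 * (τ / N) ^ 2 := by
      have := sq_nonneg (1 - τ / N)
      linarith [this, show (1 - τ / N) ^ 2 = 1 - 2 * (τ / N) + (τ / N) ^ 2 by ring,
        show (1 + τ / N) ^ 2 = 1 + 2 * (τ / N) + (τ / N) ^ 2 by ring]
    linarith
  have h3 : (((N : ℝ) - 1 + τ) / N) ^ 2 * γ ≤ 4 + 4 * τ / N ^ 2 := by
    calc (((N : ℝ) - 1 + τ) / N) ^ 2 * γ ≤ (2 + 2 * (τ / N) ^ 2) * γ :=
          mul_le_mul_of_nonneg_right hr1 hγ0
      _ = 2 * γ + 2 * (τ * γ) * τ / N ^ 2 := by ring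
      _ ≤ 4 + 2 * 2 * τ / N ^ 2 := by
          apply add_le_add
          · linarith
          · apply div_le_div_of_nonneg_right _ (by positivity)
            apply mul_le_mul_of_nonneg_right _ hτ0
            linarith
      _ = 4 + 4 * τ / N ^ 2 := by ring
  have h4 : 4 * τ / N ^ 2 ≤ c / 2 * τ := by
    rw [div_le_iff₀ (by positivity)]
    have h5 : 8 / c ≤ (N : ℝ) := by
      have : (N0 : ℝ) ≤ N := by
        have : N0 ≤ N := by omega
        exact_mod_cast this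
      linarith
    have h6 : 8 ≤ c * (N : ℝ) := by
      rw [div_le_iff₀ hc] at h5
      linarith
    have h7 : 8 ≤ c * (N : ℝ) ^ 2 := by
      have : c * (N : ℝ) * 1 ≤ c * (N : ℝ) * N :=
        mul_le_mul_of_nonneg_left (by linarith) (by positivity)
      linarith [show c * (N : ℝ) * N = c * (N : ℝ) ^ 2 by ring]
    have h8 : 8 * τ ≤ c * (N : ℝ) ^ 2 * τ := mul_le_mul_of_nonneg_right h7 hτ0
    linarith [show c / 2 * τ * (N : ℝ) ^ 2 = (c * (N : ℝ) ^ 2 * τ) / 2 by ring]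
  have h8 : (N : ℝ) + 3 < c / 2 * τ := by
    rw [div_lt_iff₀ hc] at hτbig
    linarith
  have h9 : 0 ≤ c * ((N : ℝ) - 1) := by
    apply mul_nonneg hc.le
    linarith
  have h10 : c * ((N : ℝ) - 1 + τ) = c * ((N : ℝ) - 1) + (c / 2 * τ + c / 2 * τ) := by ring
  rw [h10]
  linarith

end Pool.Agent.Q155.DF
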